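import Mathlib

/-! Project ZD: numbers for the main theorem. -/

set_option autoImplicit false

namespace Helper16.ZD

/-- the real numbers of the main theorem -/
theorem main_num (ε : ℝ) (hε : 0 < ε) (hε1 : ε ≤ 1) (r : ℕ) (W C1 : ℝ) (hW : 1 ≤ W)
    (hC1 : 1 ≤ C1) : ∃ C l0 : ℝ, 1 ≤ C ∧ W ≤ l0 ∧ ∀ (L N Om : ℝ), 1 ≤ N → 1 ≤ Om →
    Om ≤ C1 * N ^ (ε / 10) → C * N ^ ε < L →
    ∃ X n0 : ℕ, 1 ≤ X ∧ 1 ≤ n0 ∧ W * (2 * n0) ≤ X ∧ W ≤ n0 ∧ 2 ≤ L ∧
      (X : ℝ) * (4 * (Real.log N + l0)) ≤ L ∧ L ≤ X * (8 * (Real.log N + l0)) ∧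
      ∀ lP : ℝ, 3 * (Real.log N + l0) ≤ lP → lP ≤ 8 * (Real.log N + l0) →
        Real.log N ≤ (1 - ε / 20) * lP ∧
        2 * (r + 1) * Real.exp (ε / 20 * lP) * Om < n0 := by
  set W' : ℕ := ⌈W⌉₊ with hW'
  have hWW : W ≤ W' := Nat.le_ceil W
  have hW1 : (1 : ℝ) ≤ W' := hW.trans hWW
  set C2 : ℝ := 10 / ε + W with hC2
  have hC2' : 1 ≤ C2 := by
    have : 0 < 10 / ε := by positivity
    linarith
  set E0 : ℝ := Real.exp (2 * ε / 5 * W) with hE0
  have hE1 : 1 ≤ E0 := Real.one_le_exp (by positivity)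
  set C : ℝ := 8 * C2 * (2 * W') * (2 * (r + 1) * E0 * C1 + W + 2) + 8 * C2 * 8 + 2 with hC
  have hr : (0 : ℝ) ≤ r := by positivity
  refine ⟨C, W, ?_, le_refl _, ?_⟩
  · have h1 : 0 ≤ 8 * C2 * (2 * W') * (2 * (r + 1) * E0 * C1 + W + 2) := by positivity
    have h2 : 0 ≤ 8 * C2 * 8 := by positivity
    linarith
  intro L N Om hN hOm hOmle hL
  set lg : ℝ := Real.log N with hlg
  have hlg0 : 0 ≤ lg := Real.log_nonneg hN
  have hNe : 1 ≤ N ^ (ε / 10) := Real.one_le_rpow hN (by positivity)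
  set T : ℝ := N ^ (ε / 10) with hT
  have hN0 : 0 < N := by linarith
  have hl : lg + W ≤ C2 * T := by
    have h1 : lg ≤ N ^ (ε / 10) / (ε / 10) := Real.log_le_rpow_div hN0.le (by positivity)
    have h2 : N ^ (ε / 10) / (ε / 10) = 10 / ε * T := by rw [hT]; field_simp
    rw [h2] at h1
    rw [hC2]
    nlinarith
  set l : ℝ := lg + W with hldef
  have hl0 : 1 ≤ l := by linarith
  have hT10 : N ^ ε = T ^ (10 : ℕ) := by
    rw [hT, ← Real.rpow_natCast, ← Real.rpow_mul hN0.le]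
    congr 1
    push_cast
    ring
  have hC0 : 0 < C := by
    have h1 : 0 ≤ 8 * C2 * (2 * W') * (2 * (r + 1) * E0 * C1 + W + 2) := by positivity
    have h2 : 0 ≤ 8 * C2 * 8 := by positivity
    linarith
  have hL2 : C * T ^ 10 < L := by rw [← hT10]; exact hL
  have hT1 : T ≤ T ^ 10 := by
    calc T = T ^ 1 := (pow_one T).symm
      _ ≤ T ^ 10 := pow_le_pow_right₀ hNe (by norm_num)
  have hT6 : T ^ 6 ≤ T ^ 10 := pow_le_pow_right₀ hNe (by norm_num)
  have hT0 : 0 < T := by linarith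
  -- `L / (4 l)`
  set x : ℝ := L / (4 * l) with hx
  have hLpos : 0 < L := by
    have : 0 < C * T ^ 10 := by positivity
    linarith
  have hl4 : 0 < 4 * l := by linarith
  have hxl : x * (4 * l) = L := by rw [hx]; field_simp
  set X : ℕ := ⌊x⌋₊ with hX
  have hx0 : 0 ≤ x := by positivity
  have hXle : (X : ℝ) ≤ x := Nat.floor_le hx0
  have hxX : x < X + 1 := Nat.lt_floor_add_one x
  -- the lower bound for `x`
  have hxbig : 2 * (2 * W') * ((2 * (r + 1) * E0 * C1 + W + 2) * T ^ 5) + 4 ≤ x := by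
    rw [hx, le_div_iff₀ hl4]
    have h1 : (2 * (2 * W') * ((2 * (r + 1) * E0 * C1 + W + 2) * T ^ 5) + 4) * (4 * l) ≤
        (2 * (2 * W') * ((2 * (r + 1) * E0 * C1 + W + 2) * T ^ 5) + 4) * (4 * (C2 * T)) := by
      have h0 : 0 ≤ 2 * (2 * W') * ((2 * (r + 1) * E0 * C1 + W + 2) * T ^ 5) + 4 := by positivity
      exact mul_le_mul_of_nonneg_left (by linarith) h0
    have h2 : (2 * (2 * W') * ((2 * (r + 1) * E0 * C1 + W + 2) * T ^ 5) + 4) * (4 * (C2 * T)) =
        8 * C2 * (2 * W') * (2 * (r + 1) * E0 * C1 + W + 2) * T ^ 6 + 16 * C2 * T := by ring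
    rw [h2] at h1
    have h3 : 8 * C2 * (2 * W') * (2 * (r + 1) * E0 * C1 + W + 2) * T ^ 6 ≤
        8 * C2 * (2 * W') * (2 * (r + 1) * E0 * C1 + W + 2) * T ^ 10 :=
      mul_le_mul_of_nonneg_left hT6 (by positivity)
    have h4 : 16 * C2 * T ≤ 8 * C2 * 8 * T ^ 10 := by
      calc 16 * C2 * T ≤ 16 * C2 * T ^ 10 := mul_le_mul_of_nonneg_left hT1 (by positivity)
        _ ≤ 8 * C2 * 8 * T ^ 10 := by
          have : 0 ≤ C2 * T ^ 10 := by positivity
          nlinarith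
    have h5 : C * T ^ 10 = 8 * C2 * (2 * W') * (2 * (r + 1) * E0 * C1 + W + 2) * T ^ 10 +
        8 * C2 * 8 * T ^ 10 + 2 * T ^ 10 := by rw [hC]; ring
    have h6 : 0 < T ^ 10 := by positivity
    linarith
  set B : ℝ := (2 * (r + 1) * E0 * C1 + W + 2) * T ^ 5 with hB
  have hT5 : 1 ≤ T ^ 5 := one_le_pow₀ hNe
  have hBW : W + 2 ≤ B := by
    rw [hB]
    have h1 : 0 ≤ 2 * (r + 1) * E0 * C1 := by positivity
    nlinarith
  have hB0 : 0 < B := by linarith
  have hx4 : 4 ≤ x := by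
    have : 0 ≤ 2 * (2 * W') * B := by positivity
    linarith
  have hX1 : 1 ≤ X := by
    rw [hX]
    exact Nat.le_floor (by push_cast; linarith)
  have hXx : x ≤ 2 * X := by
    have : (1 : ℝ) ≤ X := by exact_mod_cast hX1
    linarith
  -- `n0`
  set n0 : ℕ := X / (2 * W') with hn0
  have hW'pos : 0 < 2 * W' := by
    have : 0 < W' := by
      have : (0 : ℝ) < W' := by linarith
      exact_mod_cast this
    omega
  have hn0le : n0 * (2 * W') ≤ X := Nat.div_mul_le_self X (2 * W')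
  have hn0lt : X < (n0 + 1) * (2 * W') := by
    rw [hn0]
    have := Nat.lt_div_mul_add (a := X) hW'pos
    calc X < X / (2 * W') * (2 * W') + 2 * W' := this
      _ = (X / (2 * W') + 1) * (2 * W') := by ring
  have hn0leR : (n0 : ℝ) * (2 * W') ≤ X := by exact_mod_cast hn0le
  have hn0ltR : (X : ℝ) < (n0 + 1) * (2 * W') := by exact_mod_cast hn0lt
  have hBn : B < n0 + 1 := by
    have h1 : B * (2 * (2 * W')) ≤ 2 * X := by linarith
    have h2 : B * (2 * W') < (n0 + 1) * (2 * W') := by linarith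
    have h3 : (0 : ℝ) < 2 * W' := by positivity
    exact lt_of_mul_lt_mul_right h2 h3.le
  have hn1 : 1 ≤ n0 := by
    have : (0 : ℝ) < n0 := by linarith
    exact_mod_cast this
  have hl8 : L ≤ X * (8 * l) := by
    rw [← hxl]
    nlinarith
  have hX4 : (X : ℝ) * (4 * l) ≤ L := by
    rw [← hxl]
    nlinarith
  refine ⟨X, n0, hX1, hn1, ?_, by linarith, ?_, hX4, hl8, ?_⟩
  · calc W * (2 * n0) ≤ W' * (2 * n0) := by
          have : (0 : ℝ) ≤ n0 := by positivity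
          nlinarith
      _ = n0 * (2 * W') := by ring
      _ ≤ X := hn0leR
  · have : 2 ≤ C * T ^ 10 := by
      have h1 : 1 ≤ T ^ 10 := one_le_pow₀ hNe
      have h2 : 2 ≤ C := by
        have h1 : 0 ≤ 8 * C2 * (2 * W') * (2 * (r + 1) * E0 * C1 + W + 2) := by positivity
        have h2 : 0 ≤ 8 * C2 * 8 := by positivity
        linarith
      nlinarith
    linarith
  intro lP h3 h8
  have hlP0 : 0 ≤ lP := by linarith
  refine ⟨?_, ?_⟩
  · have : (1 - ε / 20) * lP ≥ (19 / 20) * lP := by nlinarith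
    linarith
  · have e1 : Real.exp (ε / 20 * lP) ≤ E0 * T ^ 4 := by
      have h1 : T ^ 4 = Real.exp (2 * ε / 5 * lg) := by
        rw [hT, ← Real.rpow_natCast, ← Real.rpow_mul hN0.le, Real.rpow_def_of_pos hN0]
        congr 1
        push_cast
        ring
      rw [h1, hE0, ← Real.exp_add]
      refine Real.exp_le_exp.2 ?_
      calc ε / 20 * lP ≤ ε / 20 * (8 * l) := mul_le_mul_of_nonneg_left h8 (by positivity)
        _ = 2 * ε / 5 * W + 2 * ε / 5 * lg := by rw [hldef]; ring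
    have e2 : 2 * ((r : ℝ) + 1) * Real.exp (ε / 20 * lP) * Om ≤
        2 * (r + 1) * (E0 * T ^ 4) * (C1 * T) := by
      have h0 : 0 ≤ Real.exp (ε / 20 * lP) := (Real.exp_pos _).le
      have h1 : 0 ≤ E0 * T ^ 4 := by positivity
      gcongr
    have e3 : 2 * ((r : ℝ) + 1) * (E0 * T ^ 4) * (C1 * T) = 2 * (r + 1) * E0 * C1 * T ^ 5 := by ring
    have e4 : B = 2 * (r + 1) * E0 * C1 * T ^ 5 + (W + 2) * T ^ 5 := by rw [hB]; ring
    have e5 : 1 < (W + 2) * T ^ 5 := by nlinarith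
    linarith

end Helper16.ZD
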