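import Pool.Agent.Helper57.ZD.Core
import Pool.Agent.Helper57.ZD.Pig
import Pool.Agent.Helper57.ZD.Cop
import Pool.Agent.Helper57.ZD.Arith
import Pool.Agent.Helper16.ZD.MainNum

/-! Project ZD, piece Main. -/

set_option autoImplicit false

namespace Helper16.ZD

open Finset Pool.Agent.Helper90.ZD Pool.ZD

theorem log_prod_primes (S : Finset ℕ) (hS : ∀ q ∈ S, q.Prime) :
    Real.log ((∏ q ∈ S, q : ℕ) : ℝ) = ∑ q ∈ S, Real.log q := by
  push_cast
  exact Real.log_prod fun q hq => by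
    have := (hS q hq).pos
    positivity

theorem main (ε : ℝ) (hε : 0 < ε) (hε1 : ε ≤ 1) : ∃ C : ℝ, 1 ≤ C ∧
    ∀ a b : ℕ, 0 < a → 0 < b → a.Coprime b →
      Real.log ((a + b : ℕ) : ℝ) ≤
        C * ((∏ q ∈ (a * b * (a + b)).primeFactors, q : ℕ) : ℝ) ^ ε := by
  obtain ⟨r, K, W, hK, hW, hcore⟩ := core (ε / 20) (by positivity) (by linarith)
  obtain ⟨C1, hC1, hom⟩ := omega_bound (2 * K) (ε / 10) (by positivity)
  obtain ⟨C, l0, hC, hl0, hnum⟩ := main_num ε hε hε1 (r + 1) W C1 hW hC1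
  refine ⟨C, hC, fun a b ha hb hab => ?_⟩
  by_contra hcon
  push Not at hcon
  set c : ℕ := a + b with hc
  have hc0 : 0 < c := by omega
  set F : Finset ℕ := (a * b * c).primeFactors with hF
  set N : ℕ := ∏ q ∈ F, q with hN
  have hprime : ∀ q ∈ F, q.Prime := fun q hq => Nat.prime_of_mem_primeFactors hq
  have hN0 : 0 < N := Finset.prod_pos fun q hq => (hprime q hq).pos
  have hN1 : (1 : ℝ) ≤ N := by exact_mod_cast hN0
  have hab0 : a * b ≠ 0 := by positivity
  have habc0 : a * b * c ≠ 0 := by positivity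
  set L : ℝ := Real.log (c : ℝ) with hL
  have hNF : N.primeFactors = F := Nat.primeFactors_prod hprime
  -- the weight of the small primes
  have hOm1 : (1 : ℝ) ≤ ((2 * K : ℕ) : ℝ) ^ #F := by
    refine one_le_pow₀ ?_
    exact_mod_cast (by omega : 1 ≤ 2 * K)
  have hOmle : ((2 * K : ℕ) : ℝ) ^ #F ≤ C1 * (N : ℝ) ^ (ε / 10) := by
    have := hom N hN0
    rwa [hNF] at this
  obtain ⟨X, n0, hX1, hn0, hWX, hWn, hL2, hX4, hX8, hlP⟩ :=
    hnum L N _ hN1 hOm1 hOmle hcon
  have hXr : (1 : ℝ) ≤ X := by exact_mod_cast hX1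
  have hX0 : (0 : ℝ) < X := by linarith
  -- the prime `A`
  obtain ⟨A, hA, hnA, hA2⟩ := Nat.exists_prime_lt_and_le_two_mul n0 (by omega)
  have hA2r : (A : ℝ) ≤ 2 * n0 := by exact_mod_cast hA2
  have hnAr : (n0 : ℝ) < A := by exact_mod_cast hnA
  have hWA : W ≤ A := by linarith
  have hWAX : W * A ≤ X := by
    refine le_trans ?_ hWX
    exact mul_le_mul_of_nonneg_left hA2r (by linarith)
  -- the modulus
  set P : ℕ := PP c X with hP
  have hPX : P ^ X ∣ c := pp_dvd c X hc0
  have hPc : P ∣ c := (dvd_pow_self P (by omega)).trans hPX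
  obtain ⟨hp1, hp2⟩ := pp_size c X hc0 hX1
  have hcF : c.primeFactors ⊆ F := Nat.primeFactors_mono (Dvd.intro_left _ rfl) habc0
  have hrad : Real.log ((∏ p ∈ c.primeFactors, p : ℕ) : ℝ) ≤ Real.log N := by
    refine Real.log_le_log ?_ ?_
    · have : 0 < ∏ p ∈ c.primeFactors, p :=
        Finset.prod_pos fun q hq => (Nat.prime_of_mem_primeFactors hq).pos
      exact_mod_cast this
    · have : ∏ p ∈ c.primeFactors, p ≤ N :=
        Finset.prod_le_prod_of_subset_of_one_le' hcF fun q hq _ => (hprime q hq).one_le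
      exact_mod_cast this
  have hlg0 : 0 ≤ Real.log N := Real.log_nonneg hN1
  have hlX : 4 * (Real.log N + l0) ≤ L / X := by
    rw [le_div_iff₀ hX0]
    linarith
  have hl3 : 3 * (Real.log N + l0) ≤ Real.log P := by linarith
  have hl8 : Real.log P ≤ 8 * (Real.log N + l0) := by
    refine hp2.trans ?_
    rw [div_le_iff₀ hX0]
    linarith
  obtain ⟨hlN, hpig⟩ := hlP (Real.log P) hl3 hl8
  have hlogP : W ≤ Real.log P := by linarith
  have hlogP1 : 1 ≤ Real.log P := by linarith
  have hP0 : 0 < (P : ℝ) := by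
    rcases Nat.eq_zero_or_pos P with h | h
    · rw [h, Nat.cast_zero, Real.log_zero] at hlogP1
      linarith
    · exact_mod_cast h
  have hP2 : 2 ≤ P := by
    by_contra h
    have : (P : ℝ) ≤ 1 := by exact_mod_cast (by omega : P ≤ 1)
    have := Real.log_nonpos hP0.le this
    linarith
  -- the numbers `s`
  set δ : ℝ := ε / 20 with hδ
  have hδ0 : 0 < δ := by positivity
  set z : ℝ := Real.exp ((1 - δ) * Real.log P) with hz
  have hNz : (N : ℝ) ≤ z := by
    rw [← Real.exp_log (by linarith : (0 : ℝ) < N)]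
    exact Real.exp_le_exp.2 hlN
  set y : ℕ := ⌊z / N⌋₊ with hy
  have hN0r : (0 : ℝ) < N := by linarith
  have hzN : 1 ≤ z / N := by rw [le_div_iff₀ hN0r]; linarith
  have hy1 : 1 ≤ y := Nat.le_floor (by push_cast; exact hzN)
  have hyle : (y : ℝ) ≤ z / N := Nat.floor_le (by linarith)
  have hylt : z / N < y + 1 := Nat.lt_floor_add_one _
  have hy1r : (1 : ℝ) ≤ y := by exact_mod_cast hy1
  set Y : ℕ := N * y with hY
  have hY1 : 1 ≤ Y := Nat.mul_pos hN0 hy1
  have hYz : (Y : ℝ) ≤ z := by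
    rw [hY]
    push_cast
    rw [le_div_iff₀ hN0r] at hyle
    linarith
  have hzY : z ≤ 2 * Y := by
    rw [hY]
    push_cast
    rw [div_lt_iff₀ hN0r] at hylt
    nlinarith
  have hlogY : Real.log Y ≤ (1 - δ) * Real.log P := by
    have h1 := Real.log_le_log (by exact_mod_cast hY1) hYz
    rwa [hz, Real.log_exp] at h1
  have hYP : Y < P := by
    have h1 : (Y : ℝ) < P := by
      refine lt_of_le_of_lt hYz ?_
      calc z < Real.exp (Real.log P) := by
            refine Real.exp_lt_exp.2 ?_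
            nlinarith
        _ = P := Real.exp_log hP0
    exact_mod_cast h1
  set ZZ : Finset ℕ := {s ∈ Icc 1 (N * y) | s.Coprime N} with hZZ
  have hcop := cop_count N y hN0
  rw [hNF] at hcop
  -- the primes of `a b`
  set Q : Finset ℕ := (a * b).primeFactors with hQ
  have hQF : Q ⊆ F := Nat.primeFactors_mono (Dvd.intro _ rfl) habc0
  have hQprime : ∀ q ∈ Q, q.Prime := fun q hq => hprime q (hQF hq)
  have habc : (a * b).Coprime c := by
    rw [hc]
    refine Nat.Coprime.mul_left ?_ ?_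
    · rw [Nat.coprime_self_add_right]
      exact hab
    · rw [Nat.coprime_add_self_right]
      exact hab.symm
  have hQP : ∀ q ∈ Q, q.Coprime P := fun q hq =>
    (habc.coprime_dvd_left (Nat.dvd_of_mem_primeFactors hq)).coprime_dvd_right hPc
  have hPN : ∀ s : ℕ, s.Coprime N → s.Coprime P := by
    intro s hs
    refine Nat.Coprime.coprime_dvd_right hPc ?_
    refine Nat.coprime_of_dvd fun p hp h1 h2 => ?_
    have h3 : p ∈ F := hcF (Nat.mem_primeFactors.2 ⟨hp, h2, by omega⟩)
    have h4 : p ∣ N := Finset.dvd_prod_of_mem (fun q => q) h3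
    have h5 : p ∣ 1 := by
      rw [← hs.gcd_eq_one]
      exact Nat.dvd_gcd h1 h4
    exact hp.one_lt.ne' (Nat.dvd_one.1 h5)
  have hcount : (r + 1) * (P * K ^ #Q) < A * #ZZ := by
    have h1 : (K : ℝ) ^ #Q * 2 ^ #F ≤ ((2 * K : ℕ) : ℝ) ^ #F := by
      push_cast
      rw [mul_pow, mul_comm]
      have : (K : ℝ) ^ #Q ≤ (K : ℝ) ^ #F :=
        pow_le_pow_right₀ (by exact_mod_cast hK) (Finset.card_le_card hQF)
      gcongr
    have h2 : (P : ℝ) = Real.exp (δ * Real.log P) * z := by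
      rw [hz, ← Real.exp_add]
      have : δ * Real.log P + (1 - δ) * Real.log P = Real.log P := by ring
      rw [this, Real.exp_log hP0]
    have h3 : (Y : ℝ) ≤ 2 ^ #F * #ZZ := by exact_mod_cast hcop
    have hz0 : 0 < z := Real.exp_pos _
    have hE : 2 * ((r : ℝ) + 1) * Real.exp (δ * Real.log P) * ((2 * K : ℕ) : ℝ) ^ #F < A := by
      refine lt_of_le_of_lt ?_ (hpig.trans hnAr)
      have h0 : 0 ≤ Real.exp (δ * Real.log P) := (Real.exp_pos _).le
      have h1 : (0 : ℝ) ≤ ((2 * K : ℕ) : ℝ) ^ #F := by positivity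
      have h2 : 2 * ((r : ℝ) + 1) ≤ 2 * (((r + 1 : ℕ) : ℝ) + 1) := by push_cast; linarith
      exact mul_le_mul_of_nonneg_right (mul_le_mul_of_nonneg_right h2 h0) h1
    have hY0 : (0 : ℝ) < Y := by exact_mod_cast hY1
    have h4 : ((r : ℝ) + 1) * (P * K ^ #Q) * 2 ^ #F < A * #ZZ * 2 ^ #F := by
      calc ((r : ℝ) + 1) * (P * K ^ #Q) * 2 ^ #F
          = (r + 1) * P * (K ^ #Q * 2 ^ #F) := by ring
        _ ≤ (r + 1) * P * ((2 * K : ℕ) : ℝ) ^ #F :=
            mul_le_mul_of_nonneg_left h1 (by positivity)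
        _ = ((r + 1) * Real.exp (δ * Real.log P) * ((2 * K : ℕ) : ℝ) ^ #F) * z := by
            linear_combination ((r + 1 : ℝ) * ((2 * K : ℕ) : ℝ) ^ #F) * h2
        _ ≤ ((r + 1) * Real.exp (δ * Real.log P) * ((2 * K : ℕ) : ℝ) ^ #F) * (2 * Y) :=
            mul_le_mul_of_nonneg_left hzY (by positivity)
        _ = (2 * ((r : ℝ) + 1) * Real.exp (δ * Real.log P) * ((2 * K : ℕ) : ℝ) ^ #F) * Y := by ring
        _ < A * Y := mul_lt_mul_of_pos_right hE hY0
        _ ≤ A * (2 ^ #F * #ZZ) := mul_le_mul_of_nonneg_left h3 (by positivity)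
        _ = A * #ZZ * 2 ^ #F := by ring
    have h5 : (0 : ℝ) < 2 ^ #F := by positivity
    have h6 := lt_of_mul_lt_mul_right h4 h5.le
    exact_mod_cast h6
  obtain ⟨j, s, hcls, hsY⟩ := pigeon (r + 1) Q (kk a b) P A K Y hQprime hP2 hQP hA hK hYP ZZ
    (fun s hs => by
      rw [hZZ, Finset.mem_filter, Finset.mem_Icc] at hs
      refine ⟨hs.1.1, hs.1.2, hPN s hs.2, fun q hq => ?_⟩
      exact Nat.Coprime.coprime_dvd_right (Finset.dvd_prod_of_mem (fun q => q) (hQF hq)) hs.2)
    hcount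
  have hab1 : L / 2 ≤ Real.log a + Real.log b := by
    have ha' : (1 : ℝ) ≤ a := by exact_mod_cast ha
    have hb' : (1 : ℝ) ≤ b := by exact_mod_cast hb
    rw [← Real.log_mul (by positivity) (by positivity)]
    have h1 : Real.log ((c : ℝ) / 2) ≤ Real.log ((a : ℝ) * b) := by
      refine Real.log_le_log (by positivity) ?_
      rw [hc]
      push_cast
      nlinarith
    rw [Real.log_div (by positivity) (by norm_num)] at h1
    have h2 := Real.log_two_lt_d9
    linarith
  have hab2 : Real.log a + Real.log b ≤ 2 * L := by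
    have h1 : Real.log a ≤ L := Real.log_le_log (by exact_mod_cast ha) (by exact_mod_cast (by omega))
    have h2 : Real.log b ≤ L := Real.log_le_log (by exact_mod_cast hb) (by exact_mod_cast (by omega))
    linarith
  have hkk := kk_size a b ha hb hab
  have hQlog : ∑ q ∈ Q, Real.log q ≤ Real.log N := by
    rw [← log_prod_primes Q hQprime]
    refine Real.log_le_log ?_ ?_
    · have : 0 < ∏ p ∈ Q, p := Finset.prod_pos fun q hq => (hQprime q hq).pos
      exact_mod_cast this
    · have : ∏ p ∈ Q, p ≤ N :=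
        Finset.prod_le_prod_of_subset_of_one_le' hQF fun q hq _ => (hprime q hq).one_le
      exact_mod_cast this
  have hq0 : ∃ q0 ∈ Q, W * A ≤ |(kk a b q0 : ℝ)| := by
    by_contra h
    push Not at h
    have h1 : ∑ q ∈ Q, |(kk a b q : ℝ)| * Real.log q ≤ ∑ q ∈ Q, (X : ℝ) * Real.log q := by
      refine Finset.sum_le_sum fun q hq => ?_
      have := h q hq
      have h2 : 0 ≤ Real.log q := Real.log_nonneg (by exact_mod_cast (hQprime q hq).one_le)
      exact mul_le_mul_of_nonneg_right (by linarith) h2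
    rw [hkk, ← Finset.mul_sum] at h1
    have h2 : (X : ℝ) * ∑ q ∈ Q, Real.log q ≤ X * Real.log N := by gcongr
    nlinarith
  refine hcore Q (kk a b) P A X Y j s hcls hsY hY1
    (kk_one a b (P ^ X) ha hb hab hPX) hWA hWAX hq0 hlogP ?_ ?_ hlogY
  · linarith
  · rw [hkk]
    have h1 : L - X * Real.log N ≤ X * Real.log P := by
      have h2 : L / X - Real.log N ≤ Real.log P := by linarith
      have h3 := mul_le_mul_of_nonneg_left h2 hX0.le
      rw [mul_sub, mul_div_cancel₀ _ hX0.ne'] at h3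
      exact h3
    have h2 : X * Real.log N ≤ L / 4 := by nlinarith
    nlinarith

end Helper16.ZD
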