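import Mathlib

/-!
# The test polynomial

A trigonometric polynomial of degree `M` whose coefficients vanish on a given sparse set of
frequencies, whose mean is not small and which is exponentially small outside an arc.
-/

set_option autoImplicit false
open Finset

namespace Helper16.ZD

/-- the coefficients of `z ^ j * (1 + z) ^ (N - j)` -/
def cf (N j i : ℕ) : ℕ := if j ≤ i then (N - j).choose (i - j) else 0

theorem cf_rel {N j : ℕ} (hj : j ≤ N) (i : ℕ) :
    ((i : ℝ) - j) * cf N j i = ((N : ℝ) - j) * cf N (j + 1) i := by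
  unfold cf
  rcases lt_trichotomy i j with h | h | h
  · rw [if_neg (by omega), if_neg (by omega)]
    simp
  · subst h
    rw [if_neg (show ¬ i + 1 ≤ i by omega)]
    simp
  · rw [if_pos h.le, if_pos (by omega)]
    obtain ⟨a, rfl⟩ : ∃ a, i = j + 1 + a := ⟨i - (j + 1), by omega⟩
    rcases hj.lt_or_eq with hN | hN
    · obtain ⟨b, rfl⟩ : ∃ b, N = j + 1 + b := ⟨N - (j + 1), by omega⟩
      have e1 : j + 1 + b - j = b + 1 := by omega
      have e2 : j + 1 + a - j = a + 1 := by omega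
      have e3 : j + 1 + b - (j + 1) = b := by omega
      have e4 : j + 1 + a - (j + 1) = a := by omega
      rw [e1, e2, e3, e4]
      have h1 := Nat.add_one_mul_choose_eq b a
      have h2 : ((b : ℝ) + 1) * (b.choose a : ℝ) = ((b + 1).choose (a + 1) : ℝ) * ((a : ℝ) + 1) := by
        exact_mod_cast h1
      push_cast
      have e5 : ((j : ℝ) + 1 + a - j) = a + 1 := by ring
      have e6 : ((j : ℝ) + 1 + b - j) = b + 1 := by ring
      rw [e5, e6, h2]
      ring
    · subst hN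
      have e1 : j - j = 0 := by omega
      have e2 : j + 1 + a - j = a + 1 := by omega
      rw [e1, e2]
      simp

theorem sum_cf {N j : ℕ} (hj : j ≤ N) (z : ℂ) :
    ∑ i ∈ range (N + 1), (cf N j i : ℂ) * z ^ i = z ^ j * (1 + z) ^ (N - j) := by
  obtain ⟨b, rfl⟩ : ∃ b, N = j + b := ⟨N - j, by omega⟩
  rw [show j + b + 1 = j + (b + 1) by ring, Finset.sum_range_add]
  have h1 : ∑ x ∈ range j, (cf (j + b) j x : ℂ) * z ^ x = 0 := by
    refine Finset.sum_eq_zero fun x hx => ?_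
    rw [Finset.mem_range] at hx
    unfold cf
    rw [if_neg (by omega)]
    simp
  rw [h1, zero_add, show j + b - j = b by omega, add_comm (1 : ℂ) z, add_pow, Finset.mul_sum]
  refine Finset.sum_congr rfl fun x _ => ?_
  unfold cf
  rw [if_pos (by omega), show j + b - j = b by omega, show j + x - j = x by omega, pow_add]
  simp
  ring

theorem phi_bound (M : ℕ) (z : ℂ) {ρ : ℝ} (hρ : 1 ≤ ρ) (hz : ‖z‖ = 1) (h1z : ‖1 + z‖ ≤ ρ)
    (E : Finset ℤ) (hE : ∀ l ∈ E, l ≠ 0) : ∀ j ≤ 2 * M,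
    ‖∑ i ∈ range (2 * M + 1), (cf (2 * M) j i : ℂ) *
      ((∏ l ∈ E, (1 - ((i : ℝ) - M) / l) : ℝ) : ℂ) * z ^ i‖ ≤
      (∏ l ∈ E, (1 + 3 * M / |(l : ℝ)|)) * ρ ^ (2 * M) := by
  induction E using Finset.induction_on with
  | empty =>
    intro j hj
    have h := sum_cf hj z
    simp only [Finset.prod_empty, Complex.ofReal_one, mul_one, one_mul]
    rw [h, norm_mul, norm_pow, norm_pow, hz, one_pow, one_mul]
    calc ‖1 + z‖ ^ (2 * M - j) ≤ ρ ^ (2 * M - j) := by gcongr
      _ ≤ ρ ^ (2 * M) := pow_le_pow_right₀ hρ (by omega)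
  | insert l E hl ih =>
    intro j hj
    have hl0 : (l : ℝ) ≠ 0 := by exact_mod_cast hE l (Finset.mem_insert_self l E)
    have ih' := ih fun m hm => hE m (Finset.mem_insert_of_mem hm)
    set Φ : ℕ → ℂ := fun j => ∑ i ∈ range (2 * M + 1), (cf (2 * M) j i : ℂ) *
      ((∏ l ∈ E, (1 - ((i : ℝ) - M) / l) : ℝ) : ℂ) * z ^ i with hΦ
    have key : ∑ i ∈ range (2 * M + 1), (cf (2 * M) j i : ℂ) *
        ((∏ l ∈ insert l E, (1 - ((i : ℝ) - M) / l) : ℝ) : ℂ) * z ^ i =
        ((1 - ((j : ℝ) - M) / l : ℝ) : ℂ) * Φ j + ((-(2 * M - j) / l : ℝ) : ℂ) * Φ (j + 1) := by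
      rw [hΦ]
      simp only [Finset.mul_sum]
      rw [← Finset.sum_add_distrib]
      refine Finset.sum_congr rfl fun i _ => ?_
      rw [Finset.prod_insert hl]
      have h1 := cf_rel hj i
      have h2 : (cf (2 * M) j i : ℝ) * (1 - ((i : ℝ) - M) / l) =
          (1 - ((j : ℝ) - M) / l) * cf (2 * M) j i + (-(2 * M - j) / l) * cf (2 * M) (j + 1) i := by
        field_simp
        push_cast at h1
        linear_combination -h1
      have h3 : ((cf (2 * M) j i : ℝ) : ℂ) * ((1 - ((i : ℝ) - M) / l : ℝ) : ℂ) =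
          ((1 - ((j : ℝ) - M) / l : ℝ) : ℂ) * ((cf (2 * M) j i : ℝ) : ℂ) +
            ((-(2 * M - j) / l : ℝ) : ℂ) * ((cf (2 * M) (j + 1) i : ℝ) : ℂ) := by
        exact_mod_cast congrArg (fun x : ℝ => (x : ℂ)) h2
      rw [Complex.ofReal_natCast, Complex.ofReal_natCast] at h3
      rw [Complex.ofReal_mul]
      linear_combination (((∏ l ∈ E, (1 - ((i : ℝ) - M) / l) : ℝ) : ℂ) * z ^ i) * h3
    rw [key]
    have hA : 0 ≤ (∏ l ∈ E, (1 + 3 * M / |(l : ℝ)|)) * ρ ^ (2 * M) := by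
      have h0 : (0 : ℝ) ≤ ρ := by linarith
      have : 0 ≤ ∏ l ∈ E, (1 + 3 * M / |(l : ℝ)|) := Finset.prod_nonneg fun l _ => by positivity
      positivity
    set A : ℝ := (∏ l ∈ E, (1 + 3 * M / |(l : ℝ)|)) * ρ ^ (2 * M) with hAdef
    have hjR : (j : ℝ) ≤ 2 * M := by exact_mod_cast hj
    have b1 : ‖((1 - ((j : ℝ) - M) / l : ℝ) : ℂ) * Φ j‖ ≤ |1 - ((j : ℝ) - M) / l| * A := by
      rw [norm_mul, Complex.norm_real, Real.norm_eq_abs]
      exact mul_le_mul_of_nonneg_left (ih' j hj) (abs_nonneg _)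
    have b2 : ‖((-(2 * M - j) / l : ℝ) : ℂ) * Φ (j + 1)‖ ≤ (2 * M - j) / |(l : ℝ)| * A := by
      rw [norm_mul, Complex.norm_real, Real.norm_eq_abs, abs_div, abs_neg,
        abs_of_nonneg (by linarith : (0 : ℝ) ≤ 2 * M - j)]
      rcases hj.lt_or_eq with h | h
      · exact mul_le_mul_of_nonneg_left (ih' (j + 1) h) (by
          have : (0 : ℝ) ≤ 2 * M - j := by linarith
          positivity)
      · have : (2 * (M : ℝ) - j) = 0 := by rw [h]; push_cast; ring
        rw [this]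
        simp
    have b3 : |1 - ((j : ℝ) - M) / l| ≤ 1 + |(j : ℝ) - M| / |(l : ℝ)| := by
      rw [← abs_div]
      calc |1 - ((j : ℝ) - M) / l| ≤ |(1 : ℝ)| + |((j : ℝ) - M) / l| := abs_sub _ _
        _ = 1 + |((j : ℝ) - M) / l| := by rw [abs_one]
    have b4 : |(j : ℝ) - M| + (2 * M - j) ≤ 3 * M := by
      have hM : (0 : ℝ) ≤ M := by positivity
      have hj0 : (0 : ℝ) ≤ j := by positivity
      rcases abs_cases ((j : ℝ) - M) with ⟨h, _⟩ | ⟨h, _⟩ <;> rw [h] <;> linarith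
    have hlpos : 0 < |(l : ℝ)| := abs_pos.2 hl0
    calc ‖((1 - ((j : ℝ) - M) / l : ℝ) : ℂ) * Φ j + ((-(2 * M - j) / l : ℝ) : ℂ) * Φ (j + 1)‖
        ≤ |1 - ((j : ℝ) - M) / l| * A + (2 * M - j) / |(l : ℝ)| * A :=
          (norm_add_le _ _).trans (add_le_add b1 b2)
      _ ≤ (1 + |(j : ℝ) - M| / |(l : ℝ)|) * A + (2 * M - j) / |(l : ℝ)| * A := by gcongr
      _ = (1 + (|(j : ℝ) - M| + (2 * M - j)) / |(l : ℝ)|) * A := by ring
      _ ≤ (1 + 3 * M / |(l : ℝ)|) * A := by gcongr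
      _ = (∏ l ∈ insert l E, (1 + 3 * M / |(l : ℝ)|)) * ρ ^ (2 * M) := by
          rw [Finset.prod_insert hl, hAdef]
          ring

/-! ### the product over the sparse set -/

theorem sum_sqrt_inv (M : ℕ) : ∑ l ∈ range M, √(1 / ((l : ℝ) + 1)) ≤ 2 * √M := by
  induction M with
  | zero => simp
  | succ M ih =>
    rw [Finset.sum_range_succ]
    have h0 : (0 : ℝ) ≤ M := by positivity
    have h1 : √(1 / ((M : ℝ) + 1)) = 1 / √((M : ℝ) + 1) := by
      rw [Real.sqrt_div zero_le_one, Real.sqrt_one]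
    have h2 : 0 < √((M : ℝ) + 1) := Real.sqrt_pos.2 (by positivity)
    have h3 : √(M : ℝ) ^ 2 = M := Real.sq_sqrt h0
    have h4 : √((M : ℝ) + 1) ^ 2 = M + 1 := Real.sq_sqrt (by positivity)
    have h5 : 0 ≤ √(M : ℝ) := Real.sqrt_nonneg _
    rw [h1]
    push_cast
    have h6 : 1 / √((M : ℝ) + 1) ≤ 2 * √((M : ℝ) + 1) - 2 * √(M : ℝ) := by
      rw [div_le_iff₀ h2]
      nlinarith [sq_nonneg (√((M : ℝ) + 1) - √(M : ℝ))]
    linarith

theorem sum_sqrt_le (M : ℕ) (E : Finset ℤ) (hE : ∀ l ∈ E, l ≠ 0 ∧ |l| ≤ M) :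
    ∑ l ∈ E, √(3 * M / |(l : ℝ)|) ≤ 7 * M := by
  have hsub : E ⊆ (range M).image (fun i : ℕ => ((i : ℤ) + 1)) ∪
      (range M).image (fun i : ℕ => (-((i : ℤ) + 1))) := by
    intro l hl
    obtain ⟨h0, h1⟩ := hE l hl
    rw [Finset.mem_union, Finset.mem_image, Finset.mem_image]
    rcases lt_or_gt_of_ne h0 with h | h
    · right
      refine ⟨(-l - 1).toNat, ?_, ?_⟩
      · rw [Finset.mem_range]
        have := abs_of_neg h
        omega
      · omega
    · left
      refine ⟨(l - 1).toNat, ?_, ?_⟩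
      · rw [Finset.mem_range]
        have := abs_of_pos h
        omega
      · omega
  have hM : (0 : ℝ) ≤ M := by positivity
  have e1 : ∑ l ∈ (range M).image (fun i : ℕ => ((i : ℤ) + 1)), √(3 * M / |(l : ℝ)|) ≤
      √(3 * M) * (2 * √M) := by
    rw [Finset.sum_image (fun a _ b _ h => by simpa using h)]
    calc ∑ i ∈ range M, √(3 * M / |(((i : ℤ) + 1 : ℤ) : ℝ)|)
        = ∑ i ∈ range M, √(3 * M) * √(1 / ((i : ℝ) + 1)) := by
          refine Finset.sum_congr rfl fun i _ => ?_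
          rw [← Real.sqrt_mul (by positivity)]
          congr 1
          push_cast
          rw [abs_of_pos (by positivity)]
          ring
      _ ≤ √(3 * M) * (2 * √M) := by
          rw [← Finset.mul_sum]
          exact mul_le_mul_of_nonneg_left (sum_sqrt_inv M) (Real.sqrt_nonneg _)
  have e2 : ∑ l ∈ (range M).image (fun i : ℕ => (-((i : ℤ) + 1))), √(3 * M / |(l : ℝ)|) ≤
      √(3 * M) * (2 * √M) := by
    rw [Finset.sum_image (fun a _ b _ h => by simpa using h)]
    calc ∑ i ∈ range M, √(3 * M / |((-((i : ℤ) + 1) : ℤ) : ℝ)|)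
        = ∑ i ∈ range M, √(3 * M) * √(1 / ((i : ℝ) + 1)) := by
          refine Finset.sum_congr rfl fun i _ => ?_
          rw [← Real.sqrt_mul (by positivity)]
          congr 1
          push_cast
          rw [abs_of_neg (by have : (0 : ℝ) ≤ i := by positivity
                             linarith)]
          ring
      _ ≤ √(3 * M) * (2 * √M) := by
          rw [← Finset.mul_sum]
          exact mul_le_mul_of_nonneg_left (sum_sqrt_inv M) (Real.sqrt_nonneg _)
  have e3 : √(3 * (M : ℝ)) * (2 * √M) = 2 * √3 * M := by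
    rw [Real.sqrt_mul (by norm_num)]
    have := Real.mul_self_sqrt hM
    linear_combination 2 * √3 * this
  have e4 : √(3 : ℝ) ≤ 1.75 := by
    rw [Real.sqrt_le_left (by norm_num)]
    norm_num
  calc ∑ l ∈ E, √(3 * M / |(l : ℝ)|)
      ≤ ∑ l ∈ (range M).image (fun i : ℕ => ((i : ℤ) + 1)) ∪
          (range M).image (fun i : ℕ => (-((i : ℤ) + 1))), √(3 * M / |(l : ℝ)|) :=
        Finset.sum_le_sum_of_subset_of_nonneg hsub fun _ _ _ => Real.sqrt_nonneg _
    _ ≤ ∑ l ∈ (range M).image (fun i : ℕ => ((i : ℤ) + 1)), √(3 * M / |(l : ℝ)|) +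
          ∑ l ∈ (range M).image (fun i : ℕ => (-((i : ℤ) + 1))), √(3 * M / |(l : ℝ)|) := by
        rw [← Finset.sum_union_inter]
        exact le_add_of_nonneg_right (Finset.sum_nonneg fun _ _ => Real.sqrt_nonneg _)
    _ ≤ 2 * √3 * M + 2 * √3 * M := by rw [← e3]; exact add_le_add e1 e2
    _ ≤ 7 * M := by nlinarith

theorem prod_le (M : ℕ) (e : ℝ) (E : Finset ℤ) (hE : ∀ l ∈ E, l ≠ 0 ∧ |l| ≤ M)
    (hc : (E.card : ℝ) ≤ e ^ 4 / 448 * M) :
    ∏ l ∈ E, (1 + 3 * M / |(l : ℝ)|) ≤ Real.exp (e ^ 2 * M / 2) := by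
  have hM : (0 : ℝ) ≤ M := by positivity
  set y : ℤ → ℝ := fun l => √(√(3 * M / |(l : ℝ)|)) with hy
  have hy0 : ∀ l, 0 ≤ y l := fun l => Real.sqrt_nonneg _
  have hy2 : ∀ l, y l ^ 2 = √(3 * M / |(l : ℝ)|) := fun l => Real.sq_sqrt (Real.sqrt_nonneg _)
  have hy4 : ∀ l, y l ^ 4 = 3 * M / |(l : ℝ)| := fun l => by
    rw [show y l ^ 4 = (y l ^ 2) ^ 2 by ring, hy2, Real.sq_sqrt (by positivity)]
  have h1 : ∏ l ∈ E, (1 + 3 * M / |(l : ℝ)|) ≤ ∏ l ∈ E, Real.exp (4 * y l) := by
    refine Finset.prod_le_prod (fun l _ => by positivity) fun l _ => ?_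
    rw [← hy4 l]
    have h := hy0 l
    calc 1 + y l ^ 4 ≤ (y l + 1) ^ 4 := by nlinarith [pow_nonneg h 2, pow_nonneg h 3]
      _ ≤ Real.exp (y l) ^ 4 := by
          gcongr
          exact Real.add_one_le_exp _
      _ = Real.exp (4 * y l) := by rw [← Real.exp_nat_mul]; norm_num
  refine h1.trans ?_
  rw [← Real.exp_sum, ← Finset.mul_sum]
  refine Real.exp_le_exp.2 ?_
  have h2 : (∑ l ∈ E, y l) ^ 2 ≤ (e ^ 2 * M / 8) ^ 2 := by
    calc (∑ l ∈ E, y l) ^ 2 ≤ E.card * ∑ l ∈ E, y l ^ 2 := sq_sum_le_card_mul_sum_sq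
      _ ≤ (e ^ 4 / 448 * M) * (7 * M) := by
          have : ∑ l ∈ E, y l ^ 2 ≤ 7 * M := by
            rw [Finset.sum_congr rfl fun l _ => hy2 l]
            exact sum_sqrt_le M E hE
          have h0 : 0 ≤ ∑ l ∈ E, y l ^ 2 := Finset.sum_nonneg fun l _ => by positivity
          gcongr
      _ = (e ^ 2 * M / 8) ^ 2 := by ring
  have h3 := abs_le_of_sq_le_sq h2 (by positivity)
  linarith [le_abs_self (∑ l ∈ E, y l)]

/-- **the test polynomial** -/
theorem test_poly {e : ℝ} (h0 : 0 < e) (h1 : e ≤ 1 / 2) (M : ℕ) (E : Finset ℤ)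
    (hE : ∀ l ∈ E, l ≠ 0 ∧ |l| ≤ M) (hc : (E.card : ℝ) ≤ e ^ 4 / 448 * M) :
    ∃ q : ℤ → ℝ, 1 / (2 * M + 1) ≤ q 0 ∧ (∀ k : ℤ, (M : ℤ) < |k| → q k = 0) ∧
      (∀ k ∈ E, q k = 0) ∧ ∑ k ∈ Icc (-M : ℤ) M, |q k| ≤ Real.exp (e ^ 2 * M / 2) ∧
      ∀ φ : ℝ, (∀ m : ℤ, e / 2 ≤ |φ - m|) →
        ‖∑ k ∈ Icc (-M : ℤ) M, (q k : ℂ) * Complex.exp (2 * Real.pi * Complex.I * k * φ)‖ ≤
          Real.exp (-(e ^ 2 * M / 2)) := by
  have hM : (0 : ℝ) ≤ M := by positivity
  set b : ℕ → ℝ := fun i => (1 / 4) ^ M * (2 * M).choose i with hb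
  set p : ℤ → ℝ := fun k => ∏ l ∈ E, (1 - (k : ℝ) / l) with hp
  set q : ℤ → ℝ := fun k => if |k| ≤ M then b (k + M).toNat * p k else 0 with hq
  have hb0 : ∀ i, 0 ≤ b i := fun i => by positivity
  have hsum : ∀ f : ℤ → ℂ, ∑ k ∈ Icc (-M : ℤ) M, f k = ∑ i ∈ range (2 * M + 1), f (i - M) := by
    intro f
    symm
    refine Finset.sum_bij (fun (i : ℕ) _ => (i : ℤ) - M) ?_ ?_ ?_ ?_
    · intro i hi
      rw [Finset.mem_range] at hi
      rw [Finset.mem_Icc]
      omega
    · intro i _ j _ h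
      omega
    · intro k hk
      rw [Finset.mem_Icc] at hk
      refine ⟨(k + M).toNat, ?_, ?_⟩
      · rw [Finset.mem_range]
        omega
      · omega
    · intro i _
      rfl
  have hsumR : ∀ f : ℤ → ℝ, ∑ k ∈ Icc (-M : ℤ) M, f k = ∑ i ∈ range (2 * M + 1), f (i - M) := by
    intro f
    have h := hsum fun k => (f k : ℂ)
    exact_mod_cast h
  have hqi : ∀ i ∈ range (2 * M + 1), q (i - M) = b i * p (i - M) := by
    intro i hi
    rw [Finset.mem_range] at hi
    have h1 : |(i : ℤ) - M| ≤ M := by rw [abs_le]; omega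
    simp only [hq]
    rw [if_pos h1]
    congr 2
    omega
  have hprod := prod_le M e E hE hc
  refine ⟨q, ?_, ?_, ?_, ?_, ?_⟩
  · simp only [hq, hp, hb]
    rw [if_pos (by simp)]
    have e1 : ((0 : ℤ) + M).toNat = M := by omega
    rw [e1]
    simp only [Int.cast_zero, zero_div, sub_zero, Finset.prod_const_one, mul_one]
    have h2 : (4 : ℝ) ^ M ≤ (2 * M + 1) * (2 * M).choose M := by
      exact_mod_cast Nat.four_pow_le_two_mul_add_one_mul_central_binom M
    rw [div_le_iff₀ (by positivity)]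
    have h4 : ((1 : ℝ) / 4) ^ M * 4 ^ M = 1 := by
      rw [← mul_pow]
      norm_num
    have h5 : (0 : ℝ) ≤ (1 / 4) ^ M := by positivity
    nlinarith [mul_le_mul_of_nonneg_left h2 h5]
  · intro k hk
    simp only [hq]
    rw [if_neg (by omega)]
  · intro k hk
    simp only [hq]
    split_ifs with h
    · have : p k = 0 := by
        simp only [hp]
        refine Finset.prod_eq_zero hk ?_
        have hk0 : (k : ℝ) ≠ 0 := by exact_mod_cast (hE k hk).1
        rw [div_self hk0, sub_self]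
      rw [this, mul_zero]
    · rfl
  · rw [hsumR]
    have hbs : ∑ i ∈ range (2 * M + 1), b i = 1 := by
      simp only [hb]
      rw [← Finset.mul_sum]
      have h := Nat.sum_range_choose (2 * M)
      have h' : ∑ i ∈ range (2 * M + 1), ((2 * M).choose i : ℝ) = 4 ^ M := by
        rw [show (4 : ℝ) ^ M = 2 ^ (2 * M) by rw [pow_mul]; norm_num]
        exact_mod_cast h
      rw [h', ← mul_pow]
      norm_num
    calc ∑ i ∈ range (2 * M + 1), |q (i - M)|
        ≤ ∑ i ∈ range (2 * M + 1), b i * ∏ l ∈ E, (1 + 3 * M / |(l : ℝ)|) := by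
          refine Finset.sum_le_sum fun i hi => ?_
          rw [hqi i hi, abs_mul, abs_of_nonneg (hb0 i)]
          refine mul_le_mul_of_nonneg_left ?_ (hb0 i)
          simp only [hp]
          rw [Finset.abs_prod]
          refine Finset.prod_le_prod (fun l _ => abs_nonneg _) fun l hl => ?_
          rw [Finset.mem_range] at hi
          have h1 : |(((i : ℤ) - M : ℤ) : ℝ)| ≤ M := by
            have : |(i : ℤ) - M| ≤ M := by rw [abs_le]; omega
            exact_mod_cast this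
          calc |1 - (((i : ℤ) - M : ℤ) : ℝ) / l| ≤ |(1 : ℝ)| + |(((i : ℤ) - M : ℤ) : ℝ) / l| :=
                abs_sub _ _
            _ = 1 + |(((i : ℤ) - M : ℤ) : ℝ)| / |(l : ℝ)| := by rw [abs_one, abs_div]
            _ ≤ 1 + 3 * M / |(l : ℝ)| := by
              have : |(((i : ℤ) - M : ℤ) : ℝ)| ≤ 3 * M := by linarith
              gcongr
      _ = ∏ l ∈ E, (1 + 3 * M / |(l : ℝ)|) := by rw [← Finset.sum_mul, hbs, one_mul]
      _ ≤ Real.exp (e ^ 2 * M / 2) := hprod
  · intro φ hφ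
    set z : ℂ := Complex.exp (2 * Real.pi * Complex.I * φ) with hz
    have hz1 : ‖z‖ = 1 := by
      rw [hz, show (2 * Real.pi * Complex.I * φ : ℂ) = ((2 * Real.pi * φ : ℝ) : ℂ) * Complex.I by
        push_cast; ring]
      exact Complex.norm_exp_ofReal_mul_I _
    have hz0 : z ≠ 0 := Complex.exp_ne_zero _
    have hpi := Real.pi_pos
    set ρ : ℝ := 2 * Real.cos (Real.pi * (e / 2)) with hρ
    have hcos : 1 ≤ ρ := by
      have h1 : Real.cos (Real.pi / 3) ≤ Real.cos (Real.pi * (e / 2)) := by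
        refine Real.cos_le_cos_of_nonneg_of_le_pi (by positivity) (by linarith) ?_
        nlinarith
      rw [Real.cos_pi_div_three] at h1
      linarith
    have h1z : ‖1 + z‖ ≤ ρ := by
      have e1 : (1 + z) = Complex.exp (Real.pi * Complex.I * φ) *
          ((2 * Real.cos (Real.pi * φ) : ℝ) : ℂ) := by
        push_cast
        rw [Complex.cos]
        have e2 : z = Complex.exp (Real.pi * Complex.I * φ) * Complex.exp (Real.pi * Complex.I * φ) := by
          rw [hz, ← Complex.exp_add]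
          congr 1
          ring
        have e3 : (1 : ℂ) = Complex.exp (Real.pi * Complex.I * φ) *
            Complex.exp (-(Real.pi * φ * Complex.I)) := by
          rw [← Complex.exp_add]
          rw [show (Real.pi * Complex.I * φ + -(Real.pi * φ * Complex.I) : ℂ) = 0 by ring,
            Complex.exp_zero]
        have e4 : Complex.exp ((Real.pi * φ : ℂ) * Complex.I) =
            Complex.exp (Real.pi * Complex.I * φ) := by
          congr 1
          ring
        rw [show (-(Real.pi * φ : ℂ) * Complex.I) = -(Real.pi * φ * Complex.I) by ring, e4]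
        linear_combination e2 + e3
      have e5 : ‖Complex.exp (Real.pi * Complex.I * φ)‖ = 1 := by
        rw [show (Real.pi * Complex.I * φ : ℂ) = ((Real.pi * φ : ℝ) : ℂ) * Complex.I by
          push_cast; ring]
        exact Complex.norm_exp_ofReal_mul_I _
      rw [e1, norm_mul, e5, one_mul, Complex.norm_real, Real.norm_eq_abs, abs_mul,
        abs_of_pos (by norm_num : (0 : ℝ) < 2), hρ]
      refine mul_le_mul_of_nonneg_left ?_ (by norm_num)
      have e6 : |Real.cos (Real.pi * φ)| = |Real.cos (Real.pi * (φ - round φ))| := by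
        have : Real.pi * φ = Real.pi * (φ - round φ) + (round φ : ℤ) * Real.pi := by ring
        rw [this, Real.cos_add_int_mul_pi]
        rw [abs_mul]
        have : |(-1 : ℝ) ^ (round φ : ℤ)| = 1 := by
          rw [abs_zpow]
          simp
        rw [this, one_mul]
      have e7 := abs_sub_round φ
      have e8 := hφ (round φ)
      rw [e6, ← Real.cos_abs (Real.pi * (φ - round φ)), abs_mul, abs_of_pos hpi]
      rw [abs_of_nonneg]
      · refine Real.cos_le_cos_of_nonneg_of_le_pi (by positivity) (by nlinarith) ?_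
        exact mul_le_mul_of_nonneg_left e8 hpi.le
      · refine Real.cos_nonneg_of_neg_pi_div_two_le_of_le ?_ ?_
        · have := abs_nonneg (φ - round φ)
          nlinarith
        · nlinarith
    have hkey := phi_bound M z hcos hz1 h1z E (fun l hl => (hE l hl).1) 0 (by omega)
    have hS : ∑ k ∈ Icc (-M : ℤ) M, (q k : ℂ) * Complex.exp (2 * Real.pi * Complex.I * k * φ) =
        ((1 / 4 : ℝ) ^ M : ℝ) * (z ^ M)⁻¹ * ∑ i ∈ range (2 * M + 1), (cf (2 * M) 0 i : ℂ) *
          ((∏ l ∈ E, (1 - ((i : ℝ) - M) / l) : ℝ) : ℂ) * z ^ i := by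
      rw [hsum, Finset.mul_sum]
      refine Finset.sum_congr rfl fun i hi => ?_
      rw [hqi i hi]
      simp only [hb, hp]
      have e1 : Complex.exp (2 * Real.pi * Complex.I * (((i : ℤ) - M : ℤ) : ℂ) * φ) =
          z ^ i * (z ^ M)⁻¹ := by
        rw [hz, ← Complex.exp_nat_mul, ← Complex.exp_nat_mul, ← Complex.exp_neg, ← Complex.exp_add]
        congr 1
        push_cast
        ring
      rw [e1]
      unfold cf
      rw [if_pos (Nat.zero_le _)]
      push_cast
      rw [Nat.sub_zero, Nat.sub_zero]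
      ring
    rw [hS, norm_mul, norm_mul, norm_inv, norm_pow, hz1, one_pow, inv_one, mul_one,
      Complex.norm_real, Real.norm_eq_abs, abs_of_nonneg (by positivity : (0 : ℝ) ≤ (1 / 4) ^ M)]
    have hfin : (1 / 4 : ℝ) ^ M * ρ ^ (2 * M) ≤ Real.exp (-(e ^ 2 * M)) := by
      have e1 : (1 / 4 : ℝ) ^ M * ρ ^ (2 * M) = (Real.cos (Real.pi * (e / 2)) ^ 2) ^ M := by
        rw [hρ, pow_mul, ← mul_pow]
        congr 1
        ring
      have e2 : e ≤ Real.sin (Real.pi * (e / 2)) := by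
        have h := Real.mul_le_sin (x := Real.pi * (e / 2)) (by positivity) (by nlinarith)
        have e3 : 2 / Real.pi * (Real.pi * (e / 2)) = e := by field_simp
        rwa [e3] at h
      have e4 : Real.cos (Real.pi * (e / 2)) ^ 2 ≤ Real.exp (-e ^ 2) := by
        have h1 := Real.sin_sq_add_cos_sq (Real.pi * (e / 2))
        have h2 := Real.add_one_le_exp (-e ^ 2)
        nlinarith
      rw [e1, show Real.exp (-(e ^ 2 * M)) = Real.exp (-e ^ 2) ^ M by
        rw [← Real.exp_nat_mul]; congr 1; ring]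
      gcongr
    calc (1 / 4 : ℝ) ^ M * ‖∑ i ∈ range (2 * M + 1), (cf (2 * M) 0 i : ℂ) *
          ((∏ l ∈ E, (1 - ((i : ℝ) - M) / l) : ℝ) : ℂ) * z ^ i‖
        ≤ (1 / 4 : ℝ) ^ M * ((∏ l ∈ E, (1 + 3 * M / |(l : ℝ)|)) * ρ ^ (2 * M)) := by gcongr
      _ = (∏ l ∈ E, (1 + 3 * M / |(l : ℝ)|)) * ((1 / 4 : ℝ) ^ M * ρ ^ (2 * M)) := by ring
      _ ≤ Real.exp (e ^ 2 * M / 2) * Real.exp (-(e ^ 2 * M)) := by
          have : 0 ≤ (1 / 4 : ℝ) ^ M * ρ ^ (2 * M) := by positivity
          gcongr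
      _ = Real.exp (-(e ^ 2 * M / 2)) := by
          rw [← Real.exp_add]
          congr 1
          ring

end Helper16.ZD
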